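import Pool.Agent.helper78.TQ6.Word

set_option autoImplicit false

/-!
# Word graphs: two classes of outdegree two

`D_0`: `v` has the arcs to `v - 1`, `v - 2`, to its first left neighbour and to its first right
neighbour `p v`.  `ρ` is the number of the row; the arcs which cross the seam leftwards are
reversed (`Arc`).  The result is acyclic (`arc_lt`), hence two classes `σ` such that every vertex
has at most two out-neighbours of its own class give a colouring with six colours (`suff`).
-/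

namespace Pool.Agent.helper38.TQ6

open Pool.Agent.helper78.TQ6

/-! ### greedy colouring -/

section greedy

variable {V : Type*} [Fintype V]

open Classical in
/-- greedy colouring along an acyclic relation -/
theorem greedy (G : SimpleGraph V) (σ : V → Bool) (b : V → ℚ)
    (hb : ∀ u v, G.Adj u v → σ u = σ v → b u ≠ b v)
    (h : ∀ v, (Finset.univ.filter (fun u => G.Adj u v ∧ σ u = σ v ∧ b u < b v)).card ≤ 2) :
    G.Colorable 6 := by
  have wf : WellFounded (fun u v : V => b u < b v) := by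
    have : IsTrans V (fun u v : V => b u < b v) := ⟨fun _ _ _ h1 h2 => lt_trans h1 h2⟩
    have : Std.Irrefl (fun u v : V => b u < b v) := ⟨fun _ => lt_irrefl _⟩
    exact Finite.wellFounded_of_trans_of_irrefl _
  have key : ∃ c : V → Fin 3, ∀ u v, G.Adj u v → σ u = σ v → b u < b v → c u ≠ c v := by
    have ex : ∀ (v : V) (f : (u : V) → b u < b v → Fin 3), ∃ t : Fin 3,
        ∀ u (hu : b u < b v), G.Adj u v → σ u = σ v → f u hu ≠ t := by
      intro v f
      by_contra hne
      push Not at hne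
      have h2 := h v
      have h3 : (Finset.univ : Finset (Fin 3)).card ≤
          (Finset.univ.filter (fun u => G.Adj u v ∧ σ u = σ v ∧ b u < b v)).card := by
        refine Finset.card_le_card_of_surjOn (fun u => if hu : b u < b v then f u hu else 0) ?_
        intro t _
        obtain ⟨u, hu, h4, h5, h6⟩ := hne t
        refine ⟨u, ?_, ?_⟩
        · simp only [Finset.coe_filter, Finset.mem_univ, true_and, Set.mem_ofPred_eq]
          exact ⟨h4, h5, hu⟩
        · simp only [dif_pos hu]
          exact h6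
      rw [Finset.card_univ, Fintype.card_fin] at h3
      omega
    refine ⟨wf.fix (fun v f => (ex v f).choose), ?_⟩
    intro u v h1 h2 h3
    have e := wf.fix_eq (fun v f => (ex v f).choose) v
    rw [e]
    exact (ex v (fun u _ => wf.fix (fun v f => (ex v f).choose) u)).choose_spec u h3 h1 h2
  obtain ⟨c, hc⟩ := key
  have C : G.Coloring (Bool × Fin 3) := SimpleGraph.Coloring.mk (fun v => (σ v, c v)) (by
    intro u v huv he
    have h1 : σ u = σ v := congrArg Prod.fst he
    have h2 : c u = c v := congrArg Prod.snd he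
    rcases lt_trichotomy (b u) (b v) with h3 | h3 | h3
    · exact hc u v huv h1 h3 h2
    · exact hb u v huv h1 h3
    · exact hc v u huv.symm h1.symm h3 h2.symm)
  have hcard := C.colorable
  have : Fintype.card (Bool × Fin 3) = 6 := by simp
  rwa [this] at hcard

end greedy

/-! ### the phase -/

/-- one step of the construction of the phase -/
theorem step (p : ℕ → ℕ) (hp : Monotone p) (hl : ∀ x, x + 1 ≤ p x) (n : ℕ) (a : ℕ → ℚ)
    (h1 : ∀ u v, u < v → v < n → a u < a v)
    (h2 : ∀ u v, u < v → v < n → v ≤ p u → a v < a u + 1) :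
    ∃ t : ℚ, (∀ u, u < n → a u < t) ∧ (∀ u, u < n → n ≤ p u → t < a u + 1) ∧
      (∀ u, u < n → p u < n → a u + 1 < t) := by
  classical
  rcases Nat.eq_zero_or_pos n with hn | hn
  · exact ⟨0, fun u hu => absurd hu (by omega), fun u hu => absurd hu (by omega),
      fun u hu => absurd hu (by omega)⟩
  -- the first vertex with `n ≤ p u`
  have hex : ∃ u, n ≤ p u := ⟨n - 1, by have := hl (n - 1); omega⟩
  set g := Nat.find hex with hg
  have hg1 : n ≤ p g := Nat.find_spec hex
  have hg2 : ∀ u, u < g → p u < n := fun u hu => not_le.1 (Nat.find_min hex hu)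
  have hgn : g ≤ n - 1 := Nat.find_min' hex (by have := hl (n - 1); omega)
  have hle : ∀ u v, u ≤ v → v < n → a u ≤ a v := by
    intro u v huv hv
    rcases Nat.eq_or_lt_of_le huv with h | h
    · rw [h]
    · exact (h1 u v h hv).le
  have e1 : a (n - 1) < a g + 1 := by
    rcases Nat.eq_or_lt_of_le hgn with h | h
    · rw [h]; linarith
    · exact h2 g (n - 1) h (by omega) (by omega)
  -- the lower bound
  have hL : ∃ l : ℚ, a (n - 1) ≤ l ∧ (∀ u, u < g → a u + 1 ≤ l) ∧ l < a g + 1 := by
    rcases Nat.eq_zero_or_pos g with h0 | h0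
    · exact ⟨a (n - 1), le_refl _, fun u hu => absurd hu (by omega), e1⟩
    · refine ⟨max (a (n - 1)) (a (g - 1) + 1), le_max_left _ _, fun u hu => ?_, ?_⟩
      · exact le_trans (by have := hle u (g - 1) (by omega) (by omega); linarith)
          (le_max_right _ _)
      · rw [max_lt_iff]
        exact ⟨e1, by have := h1 (g - 1) g (by omega) (by omega); linarith⟩
  obtain ⟨l, hl1, hl2, hl3⟩ := hL
  refine ⟨(l + (a g + 1)) / 2, fun u hu => ?_, fun u hu hu2 => ?_, fun u hu hu2 => ?_⟩
  · have := hle u (n - 1) (by omega) (by omega)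
    linarith
  · have hgu : g ≤ u := Nat.find_min' hex hu2
    have := hle g u hgu hu
    linarith
  · have hug : u < g := by
      by_contra hc
      exact absurd (hp (not_lt.1 hc)) (by omega)
    have := hl2 u hug
    linarith

/-- the phase -/
theorem phase (p : ℕ → ℕ) (hp : Monotone p) (hl : ∀ x, x + 1 ≤ p x) (n : ℕ) :
    ∃ a : ℕ → ℚ, (∀ u v, u < v → v < n → a u < a v) ∧
      (∀ u v, u < v → v < n → v ≤ p u → a v < a u + 1) ∧
      (∀ u v, u < v → v < n → p u < v → a u + 1 < a v) := by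
  induction n with
  | zero => exact ⟨fun _ => 0, fun u v _ h => absurd h (by omega), fun u v _ h => absurd h (by omega),
      fun u v _ h => absurd h (by omega)⟩
  | succ n ih =>
    obtain ⟨a, h1, h2, h3⟩ := ih
    obtain ⟨t, t1, t2, t3⟩ := step p hp hl n a h1 h2
    refine ⟨fun v => if v = n then t else a v, ?_, ?_, ?_⟩
    · intro u v huv hv
      beta_reduce
      have hun : u ≠ n := by omega
      by_cases hvn : v = n
      · rw [if_neg hun, if_pos hvn]
        exact t1 u (by omega)
      · rw [if_neg hun, if_neg hvn]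
        exact h1 u v huv (by omega)
    · intro u v huv hv hvp
      beta_reduce
      have hun : u ≠ n := by omega
      by_cases hvn : v = n
      · rw [if_neg hun, if_pos hvn]
        exact t2 u (by omega) (by omega)
      · rw [if_neg hun, if_neg hvn]
        exact h2 u v huv (by omega) hvp
    · intro u v huv hv hvp
      beta_reduce
      have hun : u ≠ n := by omega
      by_cases hvn : v = n
      · rw [if_neg hun, if_pos hvn]
        exact t3 u (by omega) (by omega)
      · rw [if_neg hun, if_neg hvn]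
        exact h3 u v huv (by omega) hvp

/-! ### the arcs -/

/-- the arcs of `D_0` with those reversed which cross the seam leftwards -/
def Arc (p ρ : ℕ → ℕ) (v u : ℕ) : Prop :=
  (u < v ∧ v ≤ u + 2 ∧ ρ v = ρ u) ∨ (v < u ∧ u ≤ v + 2 ∧ ρ v < ρ u) ∨
  (v + 2 < u ∧ u = p v ∧ ρ v < ρ u) ∨ (u + 2 < v ∧ v = p u ∧ ρ v = ρ u) ∨
  (u + 2 < v ∧ p u < v ∧ v ≤ p (u + 1) ∧ ρ v ≤ ρ u + 1) ∨
  (v + 2 < u ∧ p v < u ∧ u ≤ p (v + 1) ∧ ρ v + 2 ≤ ρ u)

/-- every edge is an arc in one of the two directions -/
theorem arc_or {p ρ : ℕ → ℕ} (hρ : Monotone ρ) {u v : ℕ} (h : Ew p u v) :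
    Arc p ρ v u ∨ Arc p ρ u v := by
  obtain ⟨h1, h2⟩ := h
  have hr := hρ h1.le
  unfold Arc
  by_cases h3 : v ≤ u + 2
  · rcases Nat.eq_or_lt_of_le hr with h4 | h4
    · exact Or.inl (Or.inl ⟨h1, h3, h4.symm⟩)
    · exact Or.inr (Or.inr (Or.inl ⟨h1, h3, h4⟩))
  · rcases h2 with h2 | ⟨h2, h5⟩
    · exact absurd h2 h3
    · rcases Nat.eq_or_lt_of_le h2 with h6 | h6
      · rcases Nat.eq_or_lt_of_le hr with h4 | h4
        · exact Or.inl (Or.inr (Or.inr (Or.inr (Or.inl ⟨by omega, h6.symm, h4.symm⟩))))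
        · exact Or.inr (Or.inr (Or.inr (Or.inl ⟨by omega, h6.symm, h4⟩)))
      · by_cases h7 : ρ v ≤ ρ u + 1
        · exact Or.inl (Or.inr (Or.inr (Or.inr (Or.inr (Or.inl ⟨by omega, h6, h5, h7⟩)))))
        · exact Or.inr (Or.inr (Or.inr (Or.inr (Or.inr (Or.inr ⟨by omega, h6, h5, by omega⟩)))))

/-- the arcs go down in `a - ρ` -/
theorem arc_lt {p ρ : ℕ → ℕ} (hl : ∀ x, x + 2 ≤ p x) {n : ℕ} {a : ℕ → ℚ} (h1 : ∀ u v, u < v → v < n → a u < a v)
    (h2 : ∀ u v, u < v → v < n → v ≤ p u → a v < a u + 1)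
    (h3 : ∀ u v, u < v → v < n → p u < v → a u + 1 < a v) {v u : ℕ} (hv : v < n) (hu : u < n)
    (h : Arc p ρ v u) : a u - ρ u < a v - ρ v := by
  rcases h with ⟨e1, e2, e3⟩ | ⟨e1, e2, e3⟩ | ⟨e1, e2, e3⟩ | ⟨e1, e2, e3⟩ | ⟨e1, e2, e3, e4⟩ |
    ⟨e1, e2, e3, e4⟩
  · have := h1 u v e1 hv
    rw [e3]
    linarith
  · have h4 : a u < a v + 1 := h2 v u e1 hu (le_trans e2 (hl v))
    have h5 : (ρ v : ℚ) + 1 ≤ ρ u := by exact_mod_cast e3
    linarith
  · have h4 : a u < a v + 1 := h2 v u (by omega) hu (by omega)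
    have h5 : (ρ v : ℚ) + 1 ≤ ρ u := by exact_mod_cast e3
    linarith
  · have := h1 u v (by omega) hv
    rw [e3]
    linarith
  · have h4 : a u + 1 < a v := h3 u v (by omega) hv e2
    have h5 : (ρ v : ℚ) ≤ ρ u + 1 := by exact_mod_cast e4
    linarith
  · -- `a u < a (v + 1) + 1 < a v + 2`
    have h4 : a u < a (v + 1) + 1 := h2 (v + 1) u (by omega) hu e3
    have h5 : a (v + 1) < a v + 1 := h2 v (v + 1) (by omega) (by omega) (by have := hl v; omega)
    have h6 : (ρ v : ℚ) + 2 ≤ ρ u := by exact_mod_cast e4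
    linarith

open Classical in
/-- the out-neighbours of the own class -/
noncomputable def outs (n : ℕ) (p ρ : ℕ → ℕ) (σ : ℕ → Bool) (v : ℕ) : Finset ℕ :=
  (Finset.range n).filter (fun u => σ u = σ v ∧ Arc p ρ v u)

/-- two classes with at most two out-neighbours of the own class -/
theorem suff {n : ℕ} {p : ℕ → ℕ} (hp : Monotone p) (hl : ∀ x, x + 2 ≤ p x) (ρ : ℕ → ℕ)
    (hρ : Monotone ρ) (σ : ℕ → Bool) (h : ∀ v, v < n → (outs n p ρ σ v).card ≤ 2) :
    (WG n p).Colorable 6 := by
  classical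
  obtain ⟨a, h1, h2, h3⟩ := phase p hp (fun x => le_trans (by omega) (hl x)) n
  have dec : ∀ u v : Fin n, (WG n p).Adj u v →
      Arc p ρ v.val u.val ∨ Arc p ρ u.val v.val := by
    intro u v huv
    rcases huv with h | h
    · exact arc_or hρ h
    · exact (arc_or hρ h).symm
  refine greedy (WG n p) (fun v => σ v.val) (fun v => a v.val - ρ v.val) ?_ ?_
  · intro u v huv _ he
    rcases dec u v huv with h4 | h4
    · exact absurd he (arc_lt hl h1 h2 h3 v.isLt u.isLt h4).ne
    · exact absurd he (arc_lt hl h1 h2 h3 u.isLt v.isLt h4).ne'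
  · intro v
    refine le_trans ?_ (h v.val v.isLt)
    rw [← Finset.card_map Fin.valEmbedding]
    refine Finset.card_le_card ?_
    intro t ht
    rw [Finset.mem_map] at ht
    obtain ⟨u, hu, rfl⟩ := ht
    rw [Finset.mem_filter] at hu
    obtain ⟨_, h4, h5, h6⟩ := hu
    unfold outs
    rw [Finset.mem_filter, Finset.mem_range]
    refine ⟨u.isLt, h5, ?_⟩
    rcases dec u v h4 with h7 | h7
    · exact h7
    · exact absurd h6 (not_lt.2 (arc_lt hl h1 h2 h3 u.isLt v.isLt h7).le)

/-- the first right neighbours, at distance at least three -/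
def pr (p : ℕ → ℕ) (x : ℕ) : ℕ := max (p x) (x + 3)

theorem pr_mono {p : ℕ → ℕ} (hp : Monotone p) : Monotone (pr p) := fun x y h => by
  unfold pr
  have := hp h
  omega

/-- `pr p` has more edges than `p` -/
theorem le_pr {n : ℕ} {p : ℕ → ℕ} : WG n p ≤ WG n (pr p) := by
  have key : ∀ x y : ℕ, Ew p x y → Ew (pr p) x y := by
    intro x y h
    obtain ⟨h1, h2⟩ := h
    refine ⟨h1, ?_⟩
    unfold pr
    rcases h2 with h2 | ⟨h2, h3⟩
    · exact Or.inl h2
    · by_cases h4 : y ≤ x + 2
      · exact Or.inl h4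
      · right
        omega
  intro x y h
  rcases h with h | h
  · exact Or.inl (key _ _ h)
  · exact Or.inr (key _ _ h)

/-- `pr p` is `p` where the windows are large -/
theorem pr_eq {n : ℕ} {p : ℕ → ℕ} (h : Nice n p) {x : ℕ} (h1 : 1 ≤ x) (h2 : x + 4 < n) :
    pr p x = p x := by
  have := h.win x h1 h2
  unfold pr
  omega

theorem pr_win {n : ℕ} {p : ℕ → ℕ} (h : Nice n p) {x : ℕ} (h1 : 1 ≤ x) (h2 : x + 4 < n) :
    x + 4 ≤ pr p x := by
  rw [pr_eq h h1 h2]
  exact h.win x h1 h2

/-- at the end all first right neighbours are at least `n - 1` -/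
theorem pr_end {n : ℕ} {p : ℕ → ℕ} (h : Nice n p) {x : ℕ} (h1 : n ≤ x + 5) : n ≤ pr p x + 1 := by
  have hb := h.big
  have h2 := h.win (n - 5) (by omega) (by omega)
  have h3 := h.mono (show n - 5 ≤ x by omega)
  unfold pr
  omega

/-- the version for irreducible word graphs -/
theorem suff_nice {n : ℕ} {p : ℕ → ℕ} (hN : Nice n p) (ρ : ℕ → ℕ) (hρ : Monotone ρ)
    (σ : ℕ → Bool) (h : ∀ v, v < n → (outs n (pr p) ρ σ v).card ≤ 2) : (WG n p).Colorable 6 :=
  (suff (pr_mono hN.mono) (fun x => by unfold pr; omega) ρ hρ σ h).mono_left le_pr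

/-- all two-queue graphs -/
theorem six_of (H : ∀ n p, Nice n p → ∃ (ρ : ℕ → ℕ) (σ : ℕ → Bool), Monotone ρ ∧
    ∀ v, v < n → (outs n (pr p) ρ σ v).card ≤ 2) : ∀ n p, Nice n p → (WG n p).Colorable 6 := by
  intro n p hN
  obtain ⟨ρ, σ, h1, h2⟩ := H n p hN
  exact suff_nice hN ρ h1 σ h2

/-- every two-queue graph has a colouring with six colours if every irreducible word graph has two
classes and rows with at most two out-neighbours of the own class -/
theorem six_all (H : ∀ n p, Nice n p → ∃ (ρ : ℕ → ℕ) (σ : ℕ → Bool), Monotone ρ ∧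
    ∀ v, v < n → (outs n (pr p) ρ σ v).card ≤ 2) :
    ∀ (n : ℕ) (G : SimpleGraph (Fin n)), TwoQ G → G.Colorable 6 := reduction (six_of H)

end Pool.Agent.helper38.TQ6
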