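import Pool.Agent.helper94.TQ6.SuffL

set_option autoImplicit false

/-!
# Labels, a row function and a free threshold: a sufficient condition for six colours

As `helper94.TQ6.suffL`, but the orientation uses an arbitrary monotone threshold `g` instead of `p`:
an edge `u < w` goes from `w` to `u` iff `w ≤ g u` and `ρ w = ρ u`, or `g u < w` and `ρ w ≤ ρ u + 1`.
The edges are those of `p`; every edge `u < w` must satisfy `w ≤ g (g u)`.
-/

namespace Pool.Agent.helper38.TQ6

open Pool.Agent.helper78.TQ6 (Ew WG)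
open Pool.Agent.helper34.TQ6 (Down exists_alpha)
open Pool.Agent.helper94.TQ6 (greedyC)

/-- the out-neighbours of `v`: adjacency (`p`) and arc (`g`, `ρ`) -/
def OutG (p g ρ : ℕ → ℕ) (v u : ℕ) : Prop :=
  (Ew p u v ∧ Down g ρ u v) ∨ (Ew p v u ∧ ¬ Down g ρ v u)

/-- the height function of a row function and a threshold -/
theorem exists_betaG {n : ℕ} {p g : ℕ → ℕ} (hg : Monotone g) (hlow : ∀ x, x + 1 ≤ g x)
    (hgg : ∀ u w, w < n → Ew p u w → w ≤ g (g u)) (ρ : ℕ → ℕ) (hρ : Monotone ρ) :
    ∃ β : ℕ → ℚ, ∀ u w, u < n → w < n → (Ew p u w ∨ Ew p w u) →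
      β u ≠ β w ∧ (β w < β u → OutG p g ρ u w) := by
  obtain ⟨α, hα⟩ := exists_alpha hg n
  have hβ : ∀ u w, w < n → Ew p u w →
      (Down g ρ u w → α u - ρ u < α w - ρ w) ∧ (¬ Down g ρ u w → α w - ρ w < α u - ρ u) := by
    intro u w hw hE
    have huw := hE.1
    obtain ⟨a1, a2, a3⟩ := hα u w huw hw.le
    have hm : ρ u ≤ ρ w := hρ huw.le
    refine ⟨fun h => ?_, fun h => ?_⟩
    · rcases h with ⟨_, h⟩ | ⟨h, h'⟩
      · rw [h]
        linarith
      · have := a3 h
        have h'' : (ρ w : ℚ) ≤ ρ u + 1 := by exact_mod_cast h'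
        linarith
    · by_cases hwp : w ≤ g u
      · have h3 : ρ u + 1 ≤ ρ w := by
          have h5 : ρ w ≠ ρ u := fun h' => h (Or.inl ⟨hwp, h'⟩)
          omega
        have := a2 hwp
        have h3' : (ρ u : ℚ) + 1 ≤ ρ w := by exact_mod_cast h3
        linarith
      · push Not at hwp
        have h3 : ρ u + 2 ≤ ρ w := by
          have h5 : ¬ ρ w ≤ ρ u + 1 := fun h' => h (Or.inr ⟨hwp, h'⟩)
          omega
        have h7 := (hα (g u) w hwp hw.le).2.1 (hgg u w hw hE)
        have h8 := (hα u (g u) (hlow u) (by omega)).2.1 le_rfl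
        have h3' : (ρ u : ℚ) + 2 ≤ ρ w := by exact_mod_cast h3
        linarith
  refine ⟨fun v => α v - ρ v, fun u w hu hw hE => ?_⟩
  rcases hE with hE | hE
  · obtain ⟨h1, h2⟩ := hβ u w hw hE
    by_cases hD : Down g ρ u w
    · exact ⟨(h1 hD).ne, fun h => absurd h (not_lt.2 (h1 hD).le)⟩
    · exact ⟨(h2 hD).ne', fun _ => Or.inr ⟨hE, hD⟩⟩
  · obtain ⟨h1, h2⟩ := hβ w u hu hE
    by_cases hD : Down g ρ w u
    · exact ⟨(h1 hD).ne', fun _ => Or.inl ⟨hE, hD⟩⟩
    · exact ⟨(h2 hD).ne, fun h => absurd h (not_lt.2 (h2 hD).le)⟩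

/-- from a height function to the colouring -/
theorem suffB {n : ℕ} {p : ℕ → ℕ} (O : ℕ → ℕ → Prop) (β : ℕ → ℚ)
    (hβ : ∀ u w, u < n → w < n → (Ew p u w ∨ Ew p w u) → β u ≠ β w ∧ (β w < β u → O u w))
    (L : ℕ → Option (Fin 6))
    (hL : ∀ u w c, w < n → Ew p u w → L u = some c → L w ≠ some c)
    (hc : ∀ v, v < n → L v = none → ∃ (F : Finset ℕ) (C : Finset (Fin 6)), F.card + C.card ≤ 5 ∧
      (∀ u, u < n → O v u → L u = none → u ∈ F) ∧
      (∀ u c, u < n → (Ew p u v ∨ Ew p v u) → L u = some c → c ∈ C)) :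
    (WG n p).Colorable 6 := by
  classical
  have hch : ∀ v : Fin n, ∃ (F : Finset ℕ) (C : Finset (Fin 6)), F.card + C.card ≤ 5 ∧
      (∀ u, u < n → L v = none → O v u → L u = none → u ∈ F) ∧
      (∀ u c, u < n → L v = none → (Ew p u v ∨ Ew p v u) → L u = some c → c ∈ C) := by
    intro v
    by_cases hv : L v = none
    · obtain ⟨F, C, h1, h2, h3⟩ := hc v v.isLt hv
      exact ⟨F, C, h1, fun u hu _ => h2 u hu, fun u c hu _ => h3 u c hu⟩
    · exact ⟨∅, ∅, by simp, fun u _ h => absurd h hv, fun u c _ h => absurd h hv⟩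
  choose F C hFC hF hC using hch
  obtain ⟨c, hc1, hc2⟩ := greedyC (V := Fin n) (fun v => β v)
    (fun v u => (Ew p v u ∨ Ew p u v) ∧ L v = none ∧ L u = none) C (by
      intro v
      refine ⟨Finset.univ.filter (fun u : Fin n => u.val ∈ F v), ?_, ?_⟩
      · refine le_trans (Nat.add_le_add_right ?_ _) (hFC v)
        rw [← Finset.card_map Fin.valEmbedding]
        refine Finset.card_le_card ?_
        intro t ht
        rw [Finset.mem_map] at ht
        obtain ⟨u, hu, rfl⟩ := ht
        exact (Finset.mem_filter.1 hu).2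
      · rintro u ⟨h3, h4, h5⟩ h6
        refine Finset.mem_filter.2 ⟨Finset.mem_univ _, hF v u u.isLt h4 ?_ h5⟩
        exact (hβ v u v.isLt u.isLt h3).2 h6)
  refine ⟨SimpleGraph.Coloring.mk (fun v : Fin n => (L v).getD (c v)) ?_⟩
  have key : ∀ u w : Fin n, Ew p u w → (L u).getD (c u) ≠ (L w).getD (c w) := by
    intro u w hE
    rcases hu : L u with _ | a
    · rcases hw : L w with _ | b
      · rw [Option.getD_none, Option.getD_none]
        rcases lt_or_gt_of_ne (hβ u w u.isLt w.isLt (Or.inl hE)).1 with h | h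
        · exact (hc2 w u ⟨Or.inr hE, hw, hu⟩ h).symm
        · exact hc2 u w ⟨Or.inl hE, hu, hw⟩ h
      · rw [Option.getD_none, Option.getD_some]
        intro h
        refine hc1 u ?_
        rw [h]
        exact hC u w b w.isLt hu (Or.inr hE) hw
    · rcases hw : L w with _ | b
      · rw [Option.getD_none, Option.getD_some]
        intro h
        refine hc1 w ?_
        rw [← h]
        exact hC w u a u.isLt hw (Or.inl hE) hu
      · rw [Option.getD_some, Option.getD_some]
        rintro rfl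
        exact hL u w a w.isLt hE hu hw
  intro u w hadj
  rcases hadj with h | h
  · exact key u w h
  · exact (key w u h).symm

/-- sufficient condition for six colours: labels `L`, a row function `ρ` and a threshold `g` -/
theorem suffLg {n : ℕ} {p g : ℕ → ℕ} (hg : Monotone g) (hlow : ∀ x, x + 1 ≤ g x)
    (hgg : ∀ u w, w < n → Ew p u w → w ≤ g (g u))
    (L : ℕ → Option (Fin 6)) (ρ : ℕ → ℕ) (hρ : Monotone ρ)
    (hL : ∀ u w c, w < n → Ew p u w → L u = some c → L w ≠ some c)
    (hc : ∀ v, v < n → L v = none → ∃ (F : Finset ℕ) (C : Finset (Fin 6)), F.card + C.card ≤ 5 ∧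
      (∀ u, u < n → OutG p g ρ v u → L u = none → u ∈ F) ∧
      (∀ u c, u < n → (Ew p u v ∨ Ew p v u) → L u = some c → c ∈ C)) :
    (WG n p).Colorable 6 := by
  obtain ⟨β, hβ⟩ := exists_betaG (n := n) (p := p) hg hlow hgg ρ hρ
  exact suffB (OutG p g ρ) β hβ L hL hc

/-- one label colour ('red'): a vertex that is not red has at most five non-red out-neighbours,
and at most four if it has a red neighbour -/
theorem suffRg {n : ℕ} {p g : ℕ → ℕ} (hg : Monotone g) (hlow : ∀ x, x + 1 ≤ g x)
    (hgg : ∀ u w, w < n → Ew p u w → w ≤ g (g u))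
    (R : ℕ → Bool) (ρ : ℕ → ℕ) (hρ : Monotone ρ)
    (hR : ∀ u w, w < n → Ew p u w → R u = true → R w = false)
    (hc : ∀ v, v < n → R v = false → ∃ F : Finset ℕ, F.card ≤ 5 ∧
      (∀ u, u < n → OutG p g ρ v u → R u = false → u ∈ F) ∧
      (∀ u, u < n → (Ew p u v ∨ Ew p v u) → R u = true → F.card ≤ 4)) :
    (WG n p).Colorable 6 := by
  classical
  refine suffLg hg hlow hgg (fun v => if R v then some 0 else none) ρ hρ ?_ ?_
  · intro u w c hw hE h1 h2
    by_cases hu : R u = true
    · have := hR u w hw hE hu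
      simp [this] at h2
    · simp [hu] at h1
  · intro v hv hv2
    have hv3 : R v = false := by
      by_contra h
      have h' : R v = true := by simpa using h
      simp [h'] at hv2
    obtain ⟨F, h1, h2, h3⟩ := hc v hv hv3
    by_cases h : ∃ u, u < n ∧ (Ew p u v ∨ Ew p v u) ∧ R u = true
    · obtain ⟨u, hu1, hu2, hu3⟩ := h
      have h4 := h3 u hu1 hu2 hu3
      refine ⟨F, {0}, by rw [Finset.card_singleton]; omega, fun w hw ho hl => h2 w hw ho ?_,
        fun w c hw hE hl => ?_⟩
      · by_contra h'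
        have h'' : R w = true := by simpa using h'
        simp [h''] at hl
      · by_cases h' : R w = true
        · simp [h'] at hl
          simp [hl]
        · simp [h'] at hl
    · push Not at h
      refine ⟨F, ∅, by simpa using h1, fun w hw ho hl => h2 w hw ho ?_, fun w c hw hE hl => ?_⟩
      · by_contra h'
        have h'' : R w = true := by simpa using h'
        simp [h''] at hl
      · have h' := h w hw hE
        simp at h'
        simp [h'] at hl

/-- thresholds near `p`: the condition of `suffLg` for `g` with `p x ≤ g x + 1` -/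
theorem gg_of_near {n : ℕ} {p g : ℕ → ℕ} (hp : Monotone p) (hg : Monotone g)
    (hg2 : ∀ x, x + 2 ≤ g x) (hpg : ∀ x, p x ≤ g x + 1)
    (h3 : ∀ x, p (x + 1) < n → p (x + 1) + 1 ≤ p (p x - 1)) :
    ∀ u w, w < n → Ew p u w → w ≤ g (g u) := by
  intro u w hw hE
  have h1 : u + 2 ≤ g (g u) := by
    have := hg2 (g u)
    have := hg2 u
    omega
  rcases hE.2 with h | ⟨_, h⟩
  · omega
  · have h4 : p (p u - 1) ≤ g (g u) + 1 := by
      have h5 : p u - 1 ≤ g u := by have := hpg u; omega
      exact (hp h5).trans (hpg (g u))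
    rcases Nat.lt_or_ge (p (u + 1)) n with h5 | h5
    · have := h3 u h5
      omega
    · have h6 : u + 1 ≤ g u := by have := hg2 u; omega
      have h7 : p (u + 1) ≤ g (u + 1) + 1 := hpg _
      have h8 : g (u + 1) ≤ g (g u) := hg h6
      omega

end Pool.Agent.helper38.TQ6
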